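import Pool.Agent.Helper70_RES.Stmts
import Pool.Agent.Helper68_QE.Resample
import Pool.Agent.Helper54_QE.Meas

/-!
# Module XFR: from almost every energy to eigenvalues
-/

set_option autoImplicit false
set_option linter.unusedVariables false

open scoped InnerProductSpace ComplexConjugate Topology ENNReal
open MeasureTheory Filter

noncomputable section

namespace Pool.Agent.RES.H27

open Pool.Agent.Anderson Pool.Agent.Helper54.Bal Pool.Agent.QE Pool.Agent.RES

variable {d : ℕ}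

/-- set the potential at `a` to zero -/
def rz (a : Site d) (p : Cfg d × ℝ) : Cfg d × ℝ := (Function.update p.1 a 0, p.2)

theorem rz_cont (a : Site d) : Continuous (rz a) := by
  unfold rz
  exact (Continuous.update continuous_fst a continuous_const).prodMk continuous_snd

theorem rz_upd (a : Site d) (V : Cfg d) (v E : ℝ) :
    rz a (Function.update V a v, E) = rz a (V, E) := by
  simp [rz]

/-- open neighbourhoods, invariant under the change of the potential at `a`, of small measure -/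
theorem exists_open (μ : Measure ℝ) [IsProbabilityMeasure μ] (a : Site d)
    (S : Set (Cfg d × ℝ)) (hS : MeasurableSet S) (h0 : (KK d μ) S = 0)
    (hinv : rz a ⁻¹' S = S) (ε : ℝ≥0∞) (hε : ε ≠ 0) :
    ∃ O : Set (Cfg d × ℝ), IsOpen O ∧ S ⊆ O ∧ (KK d μ) O ≤ ε ∧
      ∀ (V : Cfg d) (v E : ℝ), (Function.update V a v, E) ∈ O ↔ (V, E) ∈ O := by
  have hm : Measurable (rz (d := d) a) := (rz_cont a).measurable
  have : IsFiniteMeasure ((KK d μ).map (rz a)) := inferInstance
  have : ((KK d μ).map (rz a)).OuterRegular := inferInstance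
  obtain ⟨U, hSU, hU, hle⟩ := Set.exists_isOpen_le_add S ((KK d μ).map (rz a)) hε
  rw [Measure.map_apply hm hS, hinv, h0, zero_add, Measure.map_apply hm hU.measurableSet] at hle
  refine ⟨rz a ⁻¹' U, hU.preimage (rz_cont a), ?_, hle, ?_⟩
  · intro p hp
    rw [← hinv] at hp
    exact hSU hp
  · intro V v E
    rw [Set.mem_preimage, Set.mem_preimage, rz_upd]

/-- the potentials with an eigenvalue in `O` -/
def BB (a : Site d) (m : ℝ) (O : Set (Cfg d × ℝ)) : Set (Cfg d) :=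
  {V : Cfg d | ∃ E ∈ Set.Icc (-m) m, ∃ ψ : L2 d, Eig V E ψ ∧ ψ a = 1 ∧ ‖ψ‖ ≤ m ∧ (V, E) ∈ O}

theorem BB_meas (hClo : CloStmt) (a : Site d) (m : ℝ) (hm : 0 ≤ m) (O : Set (Cfg d × ℝ))
    (hO : IsOpen O) : MeasurableSet (BB a m O) := by
  have hF : ∃ F : ℕ → Set (Cfg d × ℝ), (∀ n, IsClosed (F n)) ∧ ⋃ n, F n = O := by
    let _ := TopologicalSpace.pseudoMetrizableSpacePseudoMetric (Cfg d × ℝ)
    obtain ⟨F, h1, -, h2, -⟩ := hO.exists_iUnion_isClosed
    exact ⟨F, h1, h2⟩
  obtain ⟨F, hF1, hF2⟩ := hF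
  have e : BB a m O = ⋃ n, BB a m (F n) := by
    ext V
    simp only [BB, Set.mem_ofPred_eq, Set.mem_iUnion, ← hF2]
    constructor
    · rintro ⟨E, hE, ψ, h1, h2, h3, n, hn⟩
      exact ⟨n, E, hE, ψ, h1, h2, h3, hn⟩
    · rintro ⟨n, E, hE, ψ, h1, h2, h3, hn⟩
      exact ⟨E, hE, ψ, h1, h2, h3, n, hn⟩
  rw [e]
  exact MeasurableSet.iUnion fun n => (hClo d a m hm (F n) (hF1 n)).measurableSet

/-- Lebesgue measure against `dE / (1 + E²)` on bounded sets -/
theorem vol_le_lam (m : ℝ) (hm : 0 ≤ m) (A : Set ℝ) (hA : MeasurableSet A) :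
    volume (Set.Icc (-m) m ∩ A) ≤ ENNReal.ofReal (1 + m ^ 2) * lam A := by
  have hpos : (0 : ℝ) < 1 + m ^ 2 := by positivity
  have h1 : ENNReal.ofReal ((1 + m ^ 2)⁻¹) * volume (Set.Icc (-m) m ∩ A) ≤ lam A := by
    have hmeas : MeasurableSet (Set.Icc (-m) m ∩ A) := measurableSet_Icc.inter hA
    calc ENNReal.ofReal ((1 + m ^ 2)⁻¹) * volume (Set.Icc (-m) m ∩ A)
        = ∫⁻ _ in (Set.Icc (-m) m ∩ A), ENNReal.ofReal ((1 + m ^ 2)⁻¹) := by
          rw [lintegral_const, Measure.restrict_apply MeasurableSet.univ, Set.univ_inter]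
      _ ≤ ∫⁻ E in (Set.Icc (-m) m ∩ A), ENNReal.ofReal (1 + E ^ 2)⁻¹ := by
          refine setLIntegral_mono' hmeas fun E hE => ?_
          refine ENNReal.ofReal_le_ofReal ?_
          have h2 : E ^ 2 ≤ m ^ 2 := by
            rw [← sq_abs E]
            exact pow_le_pow_left₀ (abs_nonneg _) (abs_le.2 hE.1) 2
          exact inv_anti₀ (by positivity) (by linarith)
      _ ≤ ∫⁻ E in A, ENNReal.ofReal (1 + E ^ 2)⁻¹ :=
          lintegral_mono_set Set.inter_subset_right
      _ = lam A := by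
          rw [lam, withDensity_apply _ hA]
  calc volume (Set.Icc (-m) m ∩ A)
      = ENNReal.ofReal (1 + m ^ 2) *
        (ENNReal.ofReal ((1 + m ^ 2)⁻¹) * volume (Set.Icc (-m) m ∩ A)) := by
        rw [← mul_assoc, ← ENNReal.ofReal_mul hpos.le, mul_inv_cancel₀ hpos.ne',
          ENNReal.ofReal_one, one_mul]
    _ ≤ _ := by gcongr

theorem BB_vol (hLip : LipStmt) (a : Site d) (m : ℝ) (hm : 0 ≤ m) (O : Set (Cfg d × ℝ))
    (hO : IsOpen O) (hinv : ∀ (V : Cfg d) (v E : ℝ), (Function.update V a v, E) ∈ O ↔ (V, E) ∈ O)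
    (V : Cfg d) : volume {v : ℝ | Function.update V a v ∈ BB a m O} ≤
      ENNReal.ofReal (m ^ 2) * (ENNReal.ofReal (1 + m ^ 2) * lam {E | (V, E) ∈ O}) := by
  have hA : MeasurableSet {E : ℝ | (V, E) ∈ O} := by
    have : Measurable fun E : ℝ => (V, E) := measurable_prodMk_left
    exact this hO.measurableSet
  refine (measure_mono ?_).trans ((hLip d V a m hm (Set.Icc (-m) m ∩ {E | (V, E) ∈ O})).trans ?_)
  · rintro v ⟨E, hE, ψ, h1, h2, h3, h4⟩
    exact ⟨E, ⟨hE, (hinv V v E).1 h4⟩, ψ, h1, h2, h3⟩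
  · gcongr
    exact vol_le_lam m hm _ hA

theorem eig_smul (V : Cfg d) (E : ℝ) (ψ : L2 d) (c : ℂ) (h : Eig V E ψ) : Eig V E (c • ψ) := by
  intro y
  have h1 : lap (⇑(c • ψ)) y = c * lap ψ y := by
    unfold lap
    rw [Finset.mul_sum]
    refine Finset.sum_congr rfl fun i _ => ?_
    simp only [lp.coeFn_smul, Pi.smul_apply, smul_eq_mul]
    ring
  have h2 : (c • ψ) y = c * ψ y := by
    simp only [lp.coeFn_smul, Pi.smul_apply, smul_eq_mul]
  have h3 := h y
  rw [h1, h2]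
  linear_combination c * h3

/-- module XFR -/
theorem xfr (hLip : LipStmt) (hClo : CloStmt) : XfrStmt := by
  intro d μ _ hac a N hN
  have hatom : ∀ v : ℝ, μ {v} = 0 := fun v => hac (measure_singleton v)
  -- a measurable null set which contains `N`
  set N' : Set (Cfg d × ℝ) := toMeasurable (KK d μ) N with hN'
  have hNN : N ⊆ N' := subset_toMeasurable _ _
  have hN'm : MeasurableSet N' := measurableSet_toMeasurable _ _
  have hN'0 : (KK d μ) N' = 0 := by rw [hN', measure_toMeasurable, hN]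
  have hmp := mp d μ a
  have hpm : MeasurableSet (upd a ⁻¹' N') := hmp.measurable hN'm
  -- the set `S` of the paper
  set q : Cfg d × ℝ → ℝ≥0∞ := fun p => μ (Prod.mk p ⁻¹' (upd a ⁻¹' N')) with hq
  have hqm : Measurable q := measurable_measure_prodMk_left hpm
  set S : Set (Cfg d × ℝ) := {p | q p ≠ 0} with hS
  have hSm : MeasurableSet S := by
    have : S = (q ⁻¹' {0})ᶜ := by
      ext p; simp [hS]
    rw [this]
    exact (hqm (measurableSet_singleton 0)).compl
  have hS0 : (KK d μ) S = 0 := by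
    have h1 : ((KK d μ).prod μ) (upd a ⁻¹' N') = 0 := by
      rw [hmp.measure_preimage hN'm.nullMeasurableSet, hN'0]
    have h2 := (Measure.measure_prod_null hpm).1 h1
    have h3 : ∀ᵐ p ∂(KK d μ), q p = 0 := h2
    exact ae_iff.1 h3
  have hqinv : ∀ p : Cfg d × ℝ, q (rz a p) = q p := by
    intro p
    simp only [hq]
    congr 1
    ext w
    simp [upd, rz]
  have hSinv : rz a ⁻¹' S = S := by
    ext p
    simp only [hS, Set.mem_preimage, Set.mem_ofPred_eq, hqinv]
  -- open neighbourhoods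
  have hex : ∀ j : ℕ, ∃ O : Set (Cfg d × ℝ), IsOpen O ∧ S ⊆ O ∧
      (KK d μ) O ≤ ENNReal.ofReal (1 / ((j : ℝ) + 1)) ∧
      ∀ (V : Cfg d) (v E : ℝ), (Function.update V a v, E) ∈ O ↔ (V, E) ∈ O := by
    intro j
    refine exists_open μ a S hSm hS0 hSinv _ ?_
    exact (ENNReal.ofReal_pos.2 (by positivity)).ne'
  choose O hO1 hO2 hO3 hO4 using hex
  -- the sections
  have hsec : ∀ j, Measurable fun V : Cfg d => lam {E | (V, E) ∈ O j} := fun j =>
    measurable_measure_prodMk_left (hO1 j).measurableSet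
  have hinf : ∀ᵐ V ∂(PP d μ), ⨅ j, lam {E | (V, E) ∈ O j} = 0 := by
    have hz : ∫⁻ V, (⨅ j, lam {E | (V, E) ∈ O j}) ∂(PP d μ) = 0 := by
      refine le_antisymm ?_ bot_le
      have h1 : ∀ j : ℕ, ∫⁻ V, (⨅ j, lam {E | (V, E) ∈ O j}) ∂(PP d μ) ≤
          ENNReal.ofReal (1 / ((j : ℝ) + 1)) := by
        intro j
        refine le_trans (lintegral_mono fun V => iInf_le _ j) ?_
        refine le_trans (le_of_eq ?_) (hO3 j)
        exact (Measure.prod_apply (hO1 j).measurableSet).symm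
      have h2 : Tendsto (fun j : ℕ => ENNReal.ofReal (1 / ((j : ℝ) + 1))) atTop (𝓝 0) := by
        have := ENNReal.tendsto_ofReal (tendsto_one_div_add_atTop_nhds_zero_nat (𝕜 := ℝ))
        simpa using this
      exact ge_of_tendsto' h2 h1
    exact (lintegral_eq_zero_iff (Measurable.iInf hsec)).1 hz
  -- the intersection of the sets of potentials is null
  have hB : ∀ m : ℕ, (PP d μ) (⋂ j, BB a (m : ℝ) (O j)) = 0 := by
    intro m
    have hm0 : (0 : ℝ) ≤ m := Nat.cast_nonneg m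
    have hBm : MeasurableSet (⋂ j, BB a (m : ℝ) (O j)) :=
      MeasurableSet.iInter fun j => BB_meas hClo a m hm0 (O j) (hO1 j)
    have hmr := mpres (d := d) μ a
    rw [← hmr.measure_preimage hBm.nullMeasurableSet]
    refine (Measure.measure_prod_null (hmr.measurable hBm)).2 ?_
    filter_upwards [hinf] with V hV
    refine hac ?_
    set C : ℝ≥0∞ := ENNReal.ofReal ((m : ℝ) ^ 2) * ENNReal.ofReal (1 + (m : ℝ) ^ 2) with hC
    have hle : ∀ j, volume (Prod.mk V ⁻¹' ((fun p : Cfg d × ℝ => Function.update p.1 a p.2) ⁻¹'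
        (⋂ j, BB a (m : ℝ) (O j)))) ≤ C * lam {E | (V, E) ∈ O j} := by
      intro j
      refine (measure_mono ?_).trans ((BB_vol hLip a m hm0 (O j) (hO1 j) (hO4 j) V).trans
        (le_of_eq (mul_assoc _ _ _).symm))
      intro v hv
      exact Set.mem_iInter.1 hv j
    have hCt : C ≠ ∞ := ENNReal.mul_ne_top ENNReal.ofReal_ne_top ENNReal.ofReal_ne_top
    refine le_antisymm ?_ bot_le
    refine ENNReal.le_of_forall_pos_le_add fun ε hε _ => ?_
    rw [zero_add]
    have hC1 : C + 1 ≠ ∞ := ENNReal.add_ne_top.2 ⟨hCt, ENNReal.one_ne_top⟩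
    have hC0 : C + 1 ≠ 0 := by simp
    have h1 : (⨅ j, lam {E | (V, E) ∈ O j}) < ε / (C + 1) := by
      rw [hV]
      exact ENNReal.div_pos (ENNReal.coe_ne_zero.2 hε.ne') hC1
    obtain ⟨j, hj⟩ := iInf_lt_iff.1 h1
    calc _ ≤ C * lam {E | (V, E) ∈ O j} := hle j
      _ ≤ (C + 1) * (ε / (C + 1)) := by
          gcongr
          exact le_self_add
      _ = ε := ENNReal.mul_div_cancel hC0 hC1
  have hall : ∀ᵐ V ∂(PP d μ), ∀ m : ℕ, V ∉ ⋂ j, BB a (m : ℝ) (O j) := by
    rw [ae_all_iff]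
    intro m
    exact measure_eq_zero_iff_ae_notMem.1 (hB m)
  filter_upwards [hall] with V hV
  intro E ψ hE hψ
  by_contra hcon
  push Not at hcon
  -- `(V, E)` is in `S`
  have hVS : (V, E) ∈ S := by
    have h1 : ({V a}ᶜ : Set ℝ) ⊆ Prod.mk (V, E) ⁻¹' (upd a ⁻¹' N') := by
      intro v hv
      exact hNN (hcon v hv)
    have h2 : μ ({V a}ᶜ : Set ℝ) = 1 := (prob_compl_eq_one_iff (measurableSet_singleton _)).2
      (hatom _)
    intro h3
    have h4 := measure_mono (μ := μ) h1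
    rw [h2] at h4
    have h5 : (1 : ℝ≥0∞) ≤ 0 := h4.trans (le_of_eq h3)
    exact absurd h5 (by simp)
  set ψ' : L2 d := (ψ a)⁻¹ • ψ with hψ'
  obtain ⟨m, hm⟩ := exists_nat_ge (max |E| ‖ψ'‖)
  refine hV m (Set.mem_iInter.2 fun j => ?_)
  refine ⟨E, abs_le.1 ((le_max_left _ _).trans hm), ψ', eig_smul V E ψ _ hE, ?_,
    (le_max_right _ _).trans hm, hO2 j hVS⟩
  simp only [hψ', lp.coeFn_smul, Pi.smul_apply, smul_eq_mul]
  exact inv_mul_cancel₀ hψ

end Pool.Agent.RES.H27
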